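import Pool.Agent.H94.Unc.N1b2
import Pool.Agent.H97.Unc.N2

/-!
# Jackson's inequality on the box (module N1b of UNC2)
-/

set_option autoImplicit false

open MeasureTheory Set

namespace Pool.Agent.H94.Unc

open Pool.Agent.H84.Unc

variable {n : ℕ}

/-- Derivative of the product of `h` with `sinm j k` in direction `j`. -/
lemma pd_mul_sinm {h : (Fin n → ℝ) → ℝ} (hh : ContDiff ℝ 1 h) (j : Fin n) (k : Fin n → ℕ)
    (x : Fin n → ℝ) :
    pd j (fun x => h x * sinm j k x) x = pd j h x * sinm j k x + k j * (h x * cosm k x) := by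
  classical
  have h1 : DifferentiableAt ℝ h x := (hh.differentiable (by norm_num)) x
  have h2 : DifferentiableAt ℝ (sinm j k) x :=
    ((sinm_contDiff (m := 1) j k).differentiable (by norm_num)) x
  have h3 : pd j (sinm j k) x = k j * cosm k x := by
    have hline : HasDerivAt (fun t : ℝ => sinm j k (x + t • Pi.single j (1:ℝ)))
        (fderiv ℝ (sinm j k) x (Pi.single j 1)) 0 := by
      have hl : HasDerivAt (fun t : ℝ => x + t • (Pi.single j (1:ℝ) : Fin n → ℝ))
          (Pi.single j 1) 0 := by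
        have := ((hasDerivAt_id (0:ℝ)).smul_const (Pi.single j (1:ℝ) : Fin n → ℝ)).const_add x
        simpa using this
      have h2' : HasFDerivAt (sinm j k) (fderiv ℝ (sinm j k) x)
          (x + (0:ℝ) • (Pi.single j (1:ℝ) : Fin n → ℝ)) := by
        simpa using h2.hasFDerivAt
      have h5 := HasFDerivAt.comp_hasDerivAt (l := sinm j k)
        (f := fun t : ℝ => x + t • (Pi.single j (1:ℝ) : Fin n → ℝ)) (0:ℝ) h2' hl
      exact h5
    set P : ℝ := ∏ i ∈ Finset.univ.erase j, Real.cos (k i * x i) with hP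
    have hform : ∀ t : ℝ, sinm j k (x + t • Pi.single j (1:ℝ)) =
        Real.sin (k j * (x j + t)) * P := by
      intro t
      unfold sinm
      rw [← Finset.mul_prod_erase _ _ (Finset.mem_univ j), hP]
      congr 1
      · simp
      · refine Finset.prod_congr rfl fun i hi => ?_
        have hij : i ≠ j := Finset.ne_of_mem_erase hi
        simp [hij]
    have hd : HasDerivAt (fun t : ℝ => sinm j k (x + t • Pi.single j (1:ℝ)))
        (Real.cos (k j * (x j + 0)) * (k j) * P) 0 := by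
      simp_rw [hform]
      have hin : HasDerivAt (fun t : ℝ => (k j : ℝ) * (x j + t)) (k j) 0 := by
        simpa using ((hasDerivAt_id (0:ℝ)).const_add (x j)).const_mul (k j : ℝ)
      exact ((Real.hasDerivAt_sin _).comp (0:ℝ) hin).mul_const P
    have := hline.unique hd
    unfold pd
    rw [this]
    unfold cosm
    rw [← Finset.mul_prod_erase _ _ (Finset.mem_univ j), add_zero]
    ring
  unfold pd at h3 ⊢
  have h4 : fderiv ℝ (fun x => h x * sinm j k x) x =
      h x • fderiv ℝ (sinm j k) x + sinm j k x • fderiv ℝ h x := by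
    exact fderiv_fun_mul h1 h2
  rw [h4]
  simp only [add_apply, smul_apply, smul_eq_mul, h3]
  ring

lemma sinm_zero (j : Fin n) (k : Fin n → ℕ) {x : Fin n → ℝ} (hx : x j = 0 ∨ x j = Real.pi) :
    sinm j k x = 0 := by
  unfold sinm
  refine Finset.prod_eq_zero (Finset.mem_univ j) ?_
  rw [if_pos rfl]
  rcases hx with h | h
  · rw [h]; simp
  · rw [h]; exact Real.sin_nat_mul_pi _

lemma pd_cont {h : (Fin n → ℝ) → ℝ} (hh : ContDiff ℝ 1 h) (j : Fin n) : Continuous (pd j h) := by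
  unfold pd
  exact (hh.continuous_fderiv (by norm_num)).clm_apply continuous_const

/-- Fourier coefficients of the partial derivatives. -/
lemma coef {h : (Fin n → ℝ) → ℝ} (hh : ContDiff ℝ 1 h) (j : Fin n) (k : Fin n → ℕ) :
    ∫ x in QQ n, pd j h x * sinm j k x = - (k j * ∫ x in QQ n, h x * cosm k x) := by
  have h1 := box_ibp (F := fun x => h x * sinm j k x) (hh.mul (sinm_contDiff j k)) j
    (fun x _ hx => by rw [sinm_zero j k (Or.inl hx), mul_zero])
    (fun x _ hx => by rw [sinm_zero j k (Or.inr hx), mul_zero])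
  simp_rw [pd_mul_sinm hh j k] at h1
  have i1 : IntegrableOn (fun x => pd j h x * sinm j k x) (QQ n) :=
    intOn ((pd_cont hh j).mul (sinm_cont j k))
  have i2 : IntegrableOn (fun x => (k j : ℝ) * (h x * cosm k x)) (QQ n) :=
    intOn (continuous_const.mul (hh.continuous.mul (cosm_cont k)))
  rw [integral_add i1 i2, integral_const_mul] at h1
  linarith

/-- Bessel for the derivatives. -/
lemma deriv_bound {h : (Fin n → ℝ) → ℝ} (hh : ContDiff ℝ 1 h) (N : ℕ) (F : Finset (Fin n → ℕ))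
    (hF : ∀ k ∈ F, ∃ j, N < k j) :
    ((N:ℝ) + 1) ^ 2 * ∑ k ∈ F, (∫ x in QQ n, h x * cosm k x) ^ 2 / wt k ≤
      ∫ x in QQ n, gsq h x := by
  classical
  have hB : ∀ j : Fin n, ∑ k ∈ F.filter (fun k => 0 < k j),
      (k j : ℝ) ^ 2 * ((∫ x in QQ n, h x * cosm k x) ^ 2 / wt k) ≤
      ∫ x in QQ n, (pd j h x) ^ 2 := by
    intro j
    have hb := bessel (fun k => sinm j k) wt (F.filter (fun k => 0 < k j))
      (fun k => sinm_cont j k) (fun k _ => wt_pos k)
      (fun k hk l _ => sinm_orth j k l (Finset.mem_filter.1 hk).2) (pd_cont hh j)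
    refine le_trans (le_of_eq ?_) hb
    refine Finset.sum_congr rfl fun k _ => ?_
    rw [coef hh j k]; ring
  have hsum : ∫ x in QQ n, gsq h x = ∑ j, ∫ x in QQ n, (pd j h x) ^ 2 := by
    unfold gsq
    have i1 : ∀ j ∈ (Finset.univ : Finset (Fin n)),
        IntegrableOn (fun x => (pd j h x) ^ 2) (QQ n) := fun j _ => intOn ((pd_cont hh j).pow 2)
    rw [integral_finsetSum _ i1]
  rw [hsum]
  refine le_trans ?_ (Finset.sum_le_sum fun j _ => hB j)
  have h1 : ∀ j : Fin n, ∑ k ∈ F.filter (fun k => 0 < k j),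
      (k j : ℝ) ^ 2 * ((∫ x in QQ n, h x * cosm k x) ^ 2 / wt k) =
      ∑ k ∈ F, (k j : ℝ) ^ 2 * ((∫ x in QQ n, h x * cosm k x) ^ 2 / wt k) := by
    intro j
    rw [Finset.sum_filter]
    refine Finset.sum_congr rfl fun k _ => ?_
    split_ifs with hk
    · rfl
    · have : k j = 0 := by omega
      rw [this]; simp
  simp_rw [h1]
  rw [Finset.sum_comm, Finset.mul_sum]
  refine Finset.sum_le_sum fun k hk => ?_
  rw [← Finset.sum_mul]
  refine mul_le_mul_of_nonneg_right ?_ (div_nonneg (sq_nonneg _) (wt_pos k).le)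
  obtain ⟨j, hj⟩ := hF k hk
  have h2 : ((N:ℝ) + 1) ^ 2 ≤ (k j : ℝ) ^ 2 := by
    have : ((N:ℝ) + 1) ≤ k j := by exact_mod_cast hj
    exact pow_le_pow_left₀ (by positivity) this 2
  exact h2.trans (Finset.single_le_sum (f := fun i => ((k i : ℝ)) ^ 2)
    (fun i _ => sq_nonneg _) (Finset.mem_univ j))

end Pool.Agent.H94.Unc

namespace Pool.Agent.H84.Unc

open Pool.Agent.H94.Unc

variable {n : ℕ}

/-- Jackson's inequality. -/
theorem jackson {h : (Fin n → ℝ) → ℝ} (hh : ContDiff ℝ 1 h) (N : ℕ) :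
    ∃ q ∈ VV n N, ∫ x in QQ n, (h x - q x) ^ 2 ≤ (∫ x in QQ n, gsq h x) / ((N:ℝ) + 1) ^ 2 := by
  classical
  set B : (Fin n → ℕ) → ℝ := fun k => ∫ x in QQ n, h x * cosm k x with hBdef
  have hpy : ∀ (F : Finset (Fin n → ℕ)) (b : (Fin n → ℕ) → ℝ),
      ∫ x in QQ n, (h x - ∑ k ∈ F, b k * cosm k x) ^ 2 =
      (∫ x in QQ n, h x ^ 2) - 2 * (∑ k ∈ F, b k * B k) + ∑ k ∈ F, b k ^ 2 * wt k := fun F b =>
    pyth (fun k => cosm k) wt F (fun k => cosm_cont k) (fun k _ l _ => cosm_orth k l)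
      hh.continuous b
  -- the projection
  have hproj : ∀ F : Finset (Fin n → ℕ),
      ∫ x in QQ n, (h x - ∑ k ∈ F, (B k / wt k) * cosm k x) ^ 2 =
      (∫ x in QQ n, h x ^ 2) - ∑ k ∈ F, B k ^ 2 / wt k := by
    intro F
    rw [hpy F (fun k => B k / wt k)]
    have h2 : (∑ k ∈ F, B k / wt k * B k) = ∑ k ∈ F, B k ^ 2 / wt k :=
      Finset.sum_congr rfl fun k _ => by ring
    have h3 : (∑ k ∈ F, (B k / wt k) ^ 2 * wt k) = ∑ k ∈ F, B k ^ 2 / wt k :=
      Finset.sum_congr rfl fun k _ => by have := (wt_pos k).ne'; field_simp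
    rw [h2, h3]; ring
  have hbest : ∀ (F : Finset (Fin n → ℕ)) (b : (Fin n → ℕ) → ℝ),
      (∫ x in QQ n, h x ^ 2) - ∑ k ∈ F, B k ^ 2 / wt k ≤
      ∫ x in QQ n, (h x - ∑ k ∈ F, b k * cosm k x) ^ 2 := by
    intro F b
    rw [hpy F b]
    have h2 : 0 ≤ ∑ k ∈ F, (b k - B k / wt k) ^ 2 * wt k :=
      Finset.sum_nonneg fun k _ => mul_nonneg (sq_nonneg _) (wt_pos k).le
    have h3 : ∑ k ∈ F, (b k - B k / wt k) ^ 2 * wt k =
        ∑ k ∈ F, b k ^ 2 * wt k - 2 * (∑ k ∈ F, b k * B k) + ∑ k ∈ F, B k ^ 2 / wt k := by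
      rw [Finset.mul_sum, ← Finset.sum_sub_distrib, ← Finset.sum_add_distrib]
      refine Finset.sum_congr rfl fun k _ => ?_
      have := (wt_pos k).ne'
      field_simp
      ring
    linarith
  refine ⟨fun x => ∑ k ∈ FF n N, (B k / wt k) * cosm k x, mem_VV_iff.2 ⟨_, fun x => rfl⟩, ?_⟩
  refine le_of_forall_pos_le_add fun ε hε => ?_
  obtain ⟨M₀, p, hp, hpε⟩ := density hh.continuous hε
  set M := max N M₀ with hM
  obtain ⟨b, hb⟩ := mem_VV_iff.1 (VV_mono' (le_max_right N M₀) hp)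
  have h1 : (∫ x in QQ n, h x ^ 2) - ∑ k ∈ FF n M, B k ^ 2 / wt k ≤ ε := by
    refine (hbest (FF n M) b).trans (le_trans (le_of_eq ?_) hpε)
    exact integral_congr_ae (Filter.Eventually.of_forall fun x => by
      show (h x - ∑ k ∈ FF n M, b k * cosm k x) ^ 2 = (h x - p x) ^ 2
      rw [hb x])
  have hsub : FF n N ⊆ FF n M := fun k hk =>
    mem_FF.2 fun i => (mem_FF.1 hk i).trans (le_max_left _ _)
  have h2 := Finset.sum_sdiff (f := fun k => B k ^ 2 / wt k) hsub
  have h3 := deriv_bound hh N (FF n M \ FF n N) (by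
    intro k hk
    have := (Finset.mem_sdiff.1 hk).2
    rw [mem_FF] at this
    push Not at this
    exact this)
  rw [hproj]
  have hpos : (0:ℝ) < ((N:ℝ) + 1) ^ 2 := by positivity
  have h4 : ∑ k ∈ FF n M \ FF n N, B k ^ 2 / wt k ≤
      (∫ x in QQ n, gsq h x) / ((N:ℝ) + 1) ^ 2 := by
    rw [le_div_iff₀ hpos, mul_comm]
    exact h3
  linarith

end Pool.Agent.H84.Unc
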