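import Pool.Agent.H84.Unc.Defs

/-!
# Jackson's inequality on the box, part 1: one-dimensional integrals, orthogonality
-/

set_option autoImplicit false

open MeasureTheory Set

namespace Pool.Agent.H94.Unc

open Pool.Agent.H84.Unc

/-- one-dimensional weight -/
noncomputable def w1 (k : ℕ) : ℝ := if k = 0 then Real.pi else Real.pi / 2

lemma w1_pos (k : ℕ) : 0 < w1 k := by
  unfold w1; have := Real.pi_pos; split_ifs <;> linarith

lemma int_cos (m : ℝ) (hm : m ≠ 0) (hs : Real.sin (m * Real.pi) = 0) :
    ∫ t in (0:ℝ)..Real.pi, Real.cos (m * t) = 0 := by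
  rw [intervalIntegral.integral_comp_mul_left (fun t => Real.cos t) hm, integral_cos]
  simp [hs]

lemma cc_eq (k l : ℕ) : ∫ t in Icc (0:ℝ) Real.pi, Real.cos (k * t) * Real.cos (l * t) =
    if k = l then w1 k else 0 := by
  rw [integral_Icc_eq_integral_Ioc, ← intervalIntegral.integral_of_le Real.pi_pos.le]
  have h1 : ∀ t : ℝ, Real.cos (k * t) * Real.cos (l * t) =
      (1/2) * Real.cos (((k:ℝ) - l) * t) + (1/2) * Real.cos (((k:ℝ) + l) * t) := by
    intro t
    rw [sub_mul, add_mul, Real.cos_sub, Real.cos_add]; ring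
  simp_rw [h1]
  have i1 : ∀ c : ℝ, IntervalIntegrable (fun t : ℝ => (1/2) * Real.cos (c * t)) volume 0 Real.pi :=
    fun c => (by fun_prop : Continuous fun t : ℝ => (1/2) * Real.cos (c * t)).intervalIntegrable _ _
  rw [intervalIntegral.integral_add (i1 _) (i1 _), intervalIntegral.integral_const_mul,
    intervalIntegral.integral_const_mul]
  by_cases hkl : k = l
  · subst hkl
    simp only [sub_self, zero_mul, Real.cos_zero, if_true]
    by_cases hk : k = 0
    · subst hk; simp [w1]; ring
    · rw [int_cos ((k:ℝ) + k)]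
      · simp [w1, hk]; ring
      · positivity
      · have := Real.sin_nat_mul_pi (k + k); push_cast at this; exact this
  · rw [if_neg hkl, int_cos, int_cos]
    · simp
    · intro h
      have : (k:ℝ) + l = ((k + l : ℕ):ℝ) := by push_cast; ring
      rw [this] at h
      have := Nat.cast_eq_zero.1 h; omega
    · have := Real.sin_nat_mul_pi (k + l); push_cast at this; exact this
    · intro h; apply hkl; exact_mod_cast sub_eq_zero.1 h
    · have := Real.sin_int_mul_pi ((k:ℤ) - l); push_cast at this; exact this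

lemma ss_eq (k l : ℕ) (hk : 0 < k) : ∫ t in Icc (0:ℝ) Real.pi,
    Real.sin (k * t) * Real.sin (l * t) = if k = l then w1 k else 0 := by
  rw [integral_Icc_eq_integral_Ioc, ← intervalIntegral.integral_of_le Real.pi_pos.le]
  have h1 : ∀ t : ℝ, Real.sin (k * t) * Real.sin (l * t) =
      (1/2) * Real.cos (((k:ℝ) - l) * t) - (1/2) * Real.cos (((k:ℝ) + l) * t) := by
    intro t
    rw [sub_mul, add_mul, Real.cos_sub, Real.cos_add]; ring
  simp_rw [h1]
  have i1 : ∀ c : ℝ, IntervalIntegrable (fun t : ℝ => (1/2) * Real.cos (c * t)) volume 0 Real.pi :=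
    fun c => (by fun_prop : Continuous fun t : ℝ => (1/2) * Real.cos (c * t)).intervalIntegrable _ _
  rw [intervalIntegral.integral_sub (i1 _) (i1 _), intervalIntegral.integral_const_mul,
    intervalIntegral.integral_const_mul]
  by_cases hkl : k = l
  · subst hkl
    simp only [sub_self, zero_mul, Real.cos_zero, if_true]
    rw [int_cos ((k:ℝ) + k)]
    · simp [w1, hk.ne']; ring
    · positivity
    · have := Real.sin_nat_mul_pi (k + k); push_cast at this; exact this
  · rw [if_neg hkl, int_cos, int_cos]
    · simp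
    · intro h
      have : (k:ℝ) + l = ((k + l : ℕ):ℝ) := by push_cast; ring
      rw [this] at h
      have := Nat.cast_eq_zero.1 h; omega
    · have := Real.sin_nat_mul_pi (k + l); push_cast at this; exact this
    · intro h; apply hkl; exact_mod_cast sub_eq_zero.1 h
    · have := Real.sin_int_mul_pi ((k:ℤ) - l); push_cast at this; exact this

variable {n : ℕ}

lemma QQ_eq : QQ n = Set.pi Set.univ (fun _ : Fin n => Icc (0:ℝ) Real.pi) := by
  unfold QQ; rw [Set.pi_univ_Icc]; rfl

lemma QQ_compact : IsCompact (QQ n) := by unfold QQ; exact isCompact_Icc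

lemma int_prod (f : Fin n → ℝ → ℝ) :
    ∫ x in QQ n, ∏ i, f i (x i) = ∏ i, ∫ t in Icc (0:ℝ) Real.pi, f i t := by
  rw [QQ_eq, volume_pi, Measure.restrict_pi_pi, integral_fintype_prod_eq_prod]

/-- weight -/
noncomputable def wt (k : Fin n → ℕ) : ℝ := ∏ i, w1 (k i)

lemma wt_pos (k : Fin n → ℕ) : 0 < wt k := Finset.prod_pos fun i _ => w1_pos _

/-- sine in direction `j`, cosines in the others -/
noncomputable def sinm (j : Fin n) (k : Fin n → ℕ) (x : Fin n → ℝ) : ℝ :=
  ∏ i, if i = j then Real.sin (k i * x i) else Real.cos (k i * x i)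

lemma prod_ite_eq_wt (k l : Fin n → ℕ) :
    (∏ i, if k i = l i then w1 (k i) else 0) = if k = l then wt k else 0 := by
  by_cases h : k = l
  · subst h; simp [wt]
  · rw [if_neg h]
    obtain ⟨i, hi⟩ := Function.ne_iff.1 h
    exact Finset.prod_eq_zero (Finset.mem_univ i) (by rw [if_neg hi])

lemma cosm_orth (k l : Fin n → ℕ) :
    ∫ x in QQ n, cosm k x * cosm l x = if k = l then wt k else 0 := by
  have h : ∀ x : Fin n → ℝ, cosm k x * cosm l x =
      ∏ i, (fun i t => Real.cos (k i * t) * Real.cos (l i * t)) i (x i) := by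
    intro x; simp [cosm, Finset.prod_mul_distrib]
  simp_rw [h]
  rw [int_prod (fun i t => Real.cos (k i * t) * Real.cos (l i * t))]
  simp_rw [cc_eq]
  exact prod_ite_eq_wt k l

lemma sinm_orth (j : Fin n) (k l : Fin n → ℕ) (hk : 0 < k j) :
    ∫ x in QQ n, sinm j k x * sinm j l x = if k = l then wt k else 0 := by
  have h : ∀ x : Fin n → ℝ, sinm j k x * sinm j l x =
      ∏ i, (fun i t => (if i = j then Real.sin (k i * t) else Real.cos (k i * t)) *
        (if i = j then Real.sin (l i * t) else Real.cos (l i * t))) i (x i) := by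
    intro x; simp only [sinm]; rw [← Finset.prod_mul_distrib]
  simp_rw [h]
  rw [int_prod (fun i t => (if i = j then Real.sin (k i * t) else Real.cos (k i * t)) *
        (if i = j then Real.sin (l i * t) else Real.cos (l i * t)))]
  rw [← prod_ite_eq_wt k l]
  refine Finset.prod_congr rfl fun i _ => ?_
  by_cases hij : i = j
  · subst hij; simp only [if_true]; exact ss_eq _ _ hk
  · simp only [if_neg hij]; exact cc_eq _ _

lemma cosm_contDiff (k : Fin n → ℕ) {m : WithTop ℕ∞} : ContDiff ℝ m (cosm k) := by
  unfold cosm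
  exact contDiff_prod fun i _ => Real.contDiff_cos.comp (by fun_prop)

lemma cosm_cont (k : Fin n → ℕ) : Continuous (cosm k) := (cosm_contDiff (m := 0) k).continuous

lemma sinm_contDiff (j : Fin n) (k : Fin n → ℕ) {m : WithTop ℕ∞} : ContDiff ℝ m (sinm j k) := by
  unfold sinm
  refine contDiff_prod fun i _ => ?_
  split_ifs
  · exact Real.contDiff_sin.comp (by fun_prop)
  · exact Real.contDiff_cos.comp (by fun_prop)

lemma sinm_cont (j : Fin n) (k : Fin n → ℕ) : Continuous (sinm j k) :=
  (sinm_contDiff (m := 0) j k).continuous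

end Pool.Agent.H94.Unc
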