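import Pool.Agent.H94.Unc.N1b1

/-!
# Jackson's inequality on the box, part 2: Pythagoras, density
-/

set_option autoImplicit false

open MeasureTheory Set

namespace Pool.Agent.H94.Unc

open Pool.Agent.H84.Unc

variable {n : ℕ}

lemma intOn {f : (Fin n → ℝ) → ℝ} (hf : Continuous f) : IntegrableOn f (QQ n) :=
  hf.continuousOn.integrableOn_compact QQ_compact

/-- The identity behind Bessel and Pythagoras. -/
lemma pyth {ι : Type*} (e : ι → (Fin n → ℝ) → ℝ) (w : ι → ℝ) (F : Finset ι) [DecidableEq ι]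
    (he : ∀ i, Continuous (e i))
    (ho : ∀ i ∈ F, ∀ j ∈ F, ∫ x in QQ n, e i x * e j x = if i = j then w i else 0)
    {f : (Fin n → ℝ) → ℝ} (hf : Continuous f) (b : ι → ℝ) :
    ∫ x in QQ n, (f x - ∑ i ∈ F, b i * e i x) ^ 2 =
      (∫ x in QQ n, f x ^ 2) - 2 * (∑ i ∈ F, b i * ∫ x in QQ n, f x * e i x)
        + ∑ i ∈ F, b i ^ 2 * w i := by
  have h1 : ∀ x, (f x - ∑ i ∈ F, b i * e i x) ^ 2 = f x ^ 2 - 2 * (∑ i ∈ F, b i * (f x * e i x))
      + ∑ i ∈ F, ∑ j ∈ F, b i * b j * (e i x * e j x) := by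
    intro x
    have h2 : (∑ i ∈ F, b i * e i x) ^ 2 = ∑ i ∈ F, ∑ j ∈ F, b i * b j * (e i x * e j x) := by
      rw [sq, Finset.sum_mul_sum]
      refine Finset.sum_congr rfl fun i _ => Finset.sum_congr rfl fun j _ => by ring
    have h3 : f x * (∑ i ∈ F, b i * e i x) = ∑ i ∈ F, b i * (f x * e i x) := by
      rw [Finset.mul_sum]
      refine Finset.sum_congr rfl fun i _ => by ring
    rw [← h2, ← h3]; ring
  simp_rw [h1]
  have hc1 : Continuous fun x => ∑ i ∈ F, b i * (f x * e i x) :=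
    continuous_finsetSum _ fun i _ => continuous_const.mul (hf.mul (he i))
  have hc2 : Continuous fun x => ∑ i ∈ F, ∑ j ∈ F, b i * b j * (e i x * e j x) :=
    continuous_finsetSum _ fun i _ => continuous_finsetSum _ fun j _ =>
      continuous_const.mul ((he i).mul (he j))
  have i1 : IntegrableOn (fun x => f x ^ 2) (QQ n) := intOn (hf.pow 2)
  have i2 : IntegrableOn (fun x => 2 * ∑ i ∈ F, b i * (f x * e i x)) (QQ n) :=
    intOn (continuous_const.mul hc1)
  have i3 : IntegrableOn (fun x => f x ^ 2 - 2 * ∑ i ∈ F, b i * (f x * e i x)) (QQ n) :=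
    i1.sub i2
  rw [integral_add i3 (intOn hc2), integral_sub i1 i2, integral_const_mul]
  have j1 : ∀ i ∈ F, IntegrableOn (fun x => b i * (f x * e i x)) (QQ n) := fun i _ =>
    intOn (continuous_const.mul (hf.mul (he i)))
  have j2 : ∀ i j : ι, IntegrableOn (fun x => b i * b j * (e i x * e j x)) (QQ n) := fun i j =>
    intOn (continuous_const.mul ((he i).mul (he j)))
  have j3 : ∀ i ∈ F, IntegrableOn (fun x => ∑ j ∈ F, b i * b j * (e i x * e j x)) (QQ n) :=
    fun i _ => intOn (continuous_finsetSum _ fun j _ => continuous_const.mul ((he i).mul (he j)))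
  rw [integral_finsetSum _ j1, integral_finsetSum _ j3]
  congr 1
  · congr 2
    exact Finset.sum_congr rfl fun i _ => integral_const_mul _ _
  · refine Finset.sum_congr rfl fun i hi => ?_
    rw [integral_finsetSum _ fun j _ => j2 i j]
    have : ∀ j ∈ F, ∫ x in QQ n, b i * b j * (e i x * e j x) =
        if i = j then b i ^ 2 * w i else 0 := by
      intro j hj
      rw [integral_const_mul, ho i hi j hj]
      split_ifs with h
      · subst h; ring
      · simp
    rw [Finset.sum_congr rfl this, Finset.sum_ite_eq F i]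
    simp [hi]

/-- Bessel's inequality. -/
lemma bessel {ι : Type*} (e : ι → (Fin n → ℝ) → ℝ) (w : ι → ℝ) (F : Finset ι) [DecidableEq ι]
    (he : ∀ i, Continuous (e i)) (hw : ∀ i ∈ F, 0 < w i)
    (ho : ∀ i ∈ F, ∀ j ∈ F, ∫ x in QQ n, e i x * e j x = if i = j then w i else 0)
    {f : (Fin n → ℝ) → ℝ} (hf : Continuous f) :
    ∑ i ∈ F, (∫ x in QQ n, f x * e i x) ^ 2 / w i ≤ ∫ x in QQ n, f x ^ 2 := by
  have h := pyth e w F he ho hf (fun i => (∫ x in QQ n, f x * e i x) / w i)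
  have h0 : 0 ≤ ∫ x in QQ n, (f x - ∑ i ∈ F, ((∫ x in QQ n, f x * e i x) / w i) * e i x) ^ 2 :=
    integral_nonneg fun x => sq_nonneg _
  rw [h] at h0
  have h2 : (∑ i ∈ F, (∫ x in QQ n, f x * e i x) / w i * ∫ x in QQ n, f x * e i x) =
      ∑ i ∈ F, (∫ x in QQ n, f x * e i x) ^ 2 / w i :=
    Finset.sum_congr rfl fun i _ => by ring
  have h3 : (∑ i ∈ F, ((∫ x in QQ n, f x * e i x) / w i) ^ 2 * w i) =
      ∑ i ∈ F, (∫ x in QQ n, f x * e i x) ^ 2 / w i :=
    Finset.sum_congr rfl fun i hi => by have := (hw i hi).ne'; field_simp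
  rw [h2, h3] at h0
  linarith

/-- Index set of `VV n N`. -/
def FF (n N : ℕ) : Finset (Fin n → ℕ) := Fintype.piFinset fun _ => Finset.range (N + 1)

lemma mem_FF {N : ℕ} {k : Fin n → ℕ} : k ∈ FF n N ↔ ∀ i, k i ≤ N := by
  simp [FF]

lemma VV_eq (n N : ℕ) : VV n N = Submodule.span ℝ (cosm '' (FF n N : Set (Fin n → ℕ))) := by
  unfold VV
  congr 1
  ext f
  simp only [mem_ofPred_eq, mem_image, Finset.mem_coe, mem_FF]
  constructor
  · rintro ⟨k, hk, rfl⟩; exact ⟨k, hk, rfl⟩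
  · rintro ⟨k, hk, rfl⟩; exact ⟨k, hk, rfl⟩

lemma mem_VV_iff {N : ℕ} {f : (Fin n → ℝ) → ℝ} :
    f ∈ VV n N ↔ ∃ b : (Fin n → ℕ) → ℝ, ∀ x, f x = ∑ k ∈ FF n N, b k * cosm k x := by
  rw [VV_eq, Submodule.mem_span_image_finset_iff_exists_fun']
  constructor
  · rintro ⟨c, hc⟩
    refine ⟨c, fun x => ?_⟩
    rw [← hc]; simp [Finset.sum_apply]
  · rintro ⟨c, hc⟩
    refine ⟨c, ?_⟩
    funext x; rw [hc x]; simp [Finset.sum_apply]

lemma VV_mono' {N M : ℕ} (h : N ≤ M) : VV n N ≤ VV n M := by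
  unfold VV
  refine Submodule.span_mono ?_
  rintro f ⟨k, hk, rfl⟩
  exact ⟨k, fun i => (hk i).trans h, rfl⟩

lemma cosm_mul_cosm_mem {N M : ℕ} {k l : Fin n → ℕ} (hk : ∀ i, k i ≤ N) (hl : ∀ i, l i ≤ M) :
    (fun x => cosm k x * cosm l x) ∈ VV n (N + M) := by
  classical
  have h1 : ∀ a b : ℕ, ∀ t : ℝ, Real.cos (a * t) * Real.cos (b * t) =
      (1/2) * Real.cos ((a + b : ℕ) * t) + (1/2) * Real.cos ((Nat.dist a b : ℕ) * t) := by
    intro a b t
    have h2 : Real.cos ((Nat.dist a b : ℕ) * t) = Real.cos (((a:ℝ) - b) * t) := by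
      rcases le_total a b with h | h
      · rw [Nat.dist_eq_sub_of_le h, Nat.cast_sub h, ← Real.cos_neg]; ring_nf
      · rw [Nat.dist_eq_sub_of_le_right h, Nat.cast_sub h]
    rw [h2]; push_cast
    rw [sub_mul, add_mul, Real.cos_sub, Real.cos_add]; ring
  have h3 : (fun x => cosm k x * cosm l x) = fun x => ∑ t ∈ (Finset.univ : Finset (Fin n)).powerset,
      (1/2 : ℝ) ^ n * cosm (fun i => if i ∈ t then k i + l i else Nat.dist (k i) (l i)) x := by
    funext x
    simp only [cosm]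
    rw [← Finset.prod_mul_distrib]
    simp_rw [h1]
    rw [Finset.prod_add]
    refine Finset.sum_congr rfl fun t _ => ?_
    have h4 : ((1:ℝ)/2) ^ n = (∏ i : Fin n, ((1:ℝ)/2)) := by simp
    rw [h4, ← Finset.prod_mul_distrib]
    rw [← Finset.prod_sdiff (Finset.subset_univ t), mul_comm]
    congr 1
    · exact Finset.prod_congr rfl fun i hi => by
        rw [if_neg (Finset.mem_sdiff.1 hi).2]
    · exact Finset.prod_congr rfl fun i hi => by rw [if_pos hi]
  rw [h3]
  have h5 : (fun x => ∑ t ∈ (Finset.univ : Finset (Fin n)).powerset,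
      (1/2 : ℝ) ^ n * cosm (fun i => if i ∈ t then k i + l i else Nat.dist (k i) (l i)) x) =
      ∑ t ∈ (Finset.univ : Finset (Fin n)).powerset,
      ((1/2 : ℝ) ^ n) • cosm (fun i => if i ∈ t then k i + l i else Nat.dist (k i) (l i)) := by
    funext x; simp [Finset.sum_apply]
  rw [h5]
  refine Submodule.sum_mem _ fun t _ => Submodule.smul_mem _ _ (Submodule.subset_span ?_)
  refine ⟨_, fun i => ?_, rfl⟩
  have hk' := hk i
  have hl' := hl i
  split_ifs
  · omega
  · unfold Nat.dist; omega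

lemma VV_mul {N M : ℕ} {f g : (Fin n → ℝ) → ℝ} (hf : f ∈ VV n N) (hg : g ∈ VV n M) :
    (fun x => f x * g x) ∈ VV n (N + M) := by
  rw [mem_VV_iff] at hf hg
  obtain ⟨b, hb⟩ := hf
  obtain ⟨c, hc⟩ := hg
  have h : (fun x => f x * g x) = ∑ k ∈ FF n N, ∑ l ∈ FF n M, (b k * c l) •
      (fun x => cosm k x * cosm l x) := by
    funext x
    rw [hb x, hc x, Finset.sum_mul_sum]
    simp only [Finset.sum_apply, Pi.smul_apply, smul_eq_mul]
    exact Finset.sum_congr rfl fun k _ => Finset.sum_congr rfl fun l _ => by ring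
  rw [h]
  exact Submodule.sum_mem _ fun k hk => Submodule.sum_mem _ fun l hl =>
    Submodule.smul_mem _ _ (cosm_mul_cosm_mem (mem_FF.1 hk) (mem_FF.1 hl))

/-- The algebra of cosine polynomials on the box. -/
def cosAlg (n : ℕ) : Subalgebra ℝ C(QQ n, ℝ) where
  carrier := {f | ∃ N, ∃ g ∈ VV n N, ∀ x : QQ n, f x = g x}
  mul_mem' := by
    rintro f f' ⟨N, g, hg, h⟩ ⟨N', g', hg', h'⟩
    exact ⟨N + N', _, VV_mul hg hg', fun x => by simp [h x, h' x]⟩
  add_mem' := by
    rintro f f' ⟨N, g, hg, h⟩ ⟨N', g', hg', h'⟩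
    exact ⟨N + N', g + g', Submodule.add_mem _ (VV_mono' (Nat.le_add_right _ _) hg)
      (VV_mono' (Nat.le_add_left _ _) hg'), fun x => by simp [h x, h' x]⟩
  algebraMap_mem' := by
    intro r
    refine ⟨0, r • cosm (fun _ => 0), Submodule.smul_mem _ _ (Submodule.subset_span
      ⟨_, fun _ => le_rfl, rfl⟩), fun x => ?_⟩
    simp [cosm]

lemma cosAlg_sep : (cosAlg n).SeparatesPoints := by
  intro x y hxy
  have : ∃ i, (x : Fin n → ℝ) i ≠ (y : Fin n → ℝ) i := by
    by_contra h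
    push Not at h
    exact hxy (Subtype.ext (funext h))
  obtain ⟨i, hi⟩ := this
  refine ⟨_, ⟨⟨fun z : QQ n => cosm (Pi.single i 1) (z : Fin n → ℝ),
    (cosm_cont _).comp continuous_subtype_val⟩, ⟨1, cosm (Pi.single i 1),
      Submodule.subset_span ⟨_, fun j => ?_, rfl⟩, fun z => rfl⟩, rfl⟩, ?_⟩
  · by_cases h : j = i
    · subst h; simp
    · simp [h]
  · have hc : ∀ z : QQ n, cosm (Pi.single i 1) (z : Fin n → ℝ) = Real.cos ((z : Fin n → ℝ) i) := by
      intro z
      unfold cosm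
      rw [Finset.prod_eq_single i]
      · simp
      · intro j _ hj; simp [hj]
      · intro h; exact absurd (Finset.mem_univ i) h
    simp only [ContinuousMap.coe_mk, hc]
    intro h
    apply hi
    have hx := x.2
    have hy := y.2
    simp only [QQ, mem_Icc, Pi.le_def] at hx hy
    exact Real.injOn_cos ⟨hx.1 i, hx.2 i⟩ ⟨hy.1 i, hy.2 i⟩ h

lemma density {h : (Fin n → ℝ) → ℝ} (hh : Continuous h) {ε : ℝ} (hε : 0 < ε) :
    ∃ N, ∃ q ∈ VV n N, ∫ x in QQ n, (h x - q x) ^ 2 ≤ ε := by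
  have : CompactSpace (QQ n) := isCompact_iff_compactSpace.1 QQ_compact
  set V := volume.real (QQ n) with hV
  have hV0 : 0 ≤ V := measureReal_nonneg
  have hδ : 0 < Real.sqrt (ε / (V + 1)) := Real.sqrt_pos.2 (by positivity)
  obtain ⟨g, hg⟩ := ContinuousMap.exists_mem_subalgebra_near_continuous_of_separatesPoints
    (cosAlg n) cosAlg_sep (fun x : QQ n => h x) (hh.comp continuous_subtype_val) _ hδ
  obtain ⟨N, q, hq, hgq⟩ := g.2
  refine ⟨N, q, hq, ?_⟩
  have h1 : ∀ x ∈ QQ n, (h x - q x) ^ 2 ≤ ε / (V + 1) := by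
    intro x hx
    have h2 := hg ⟨x, hx⟩
    rw [hgq ⟨x, hx⟩] at h2
    simp only [Real.norm_eq_abs] at h2
    have h3 : (h x - q x) ^ 2 = |q x - h x| ^ 2 := by rw [sq_abs]; ring
    rw [h3, ← Real.sq_sqrt (show 0 ≤ ε / (V + 1) by positivity)]
    exact pow_le_pow_left₀ (abs_nonneg _) h2.le 2
  have hqc : Continuous q := by
    obtain ⟨b, hb⟩ := mem_VV_iff.1 hq
    have : q = fun x => ∑ k ∈ FF n N, b k * cosm k x := funext hb
    rw [this]
    exact continuous_finsetSum _ fun k _ => continuous_const.mul (cosm_cont k)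
  calc ∫ x in QQ n, (h x - q x) ^ 2 ≤ ∫ x in QQ n, ε / (V + 1) :=
        setIntegral_mono_on (intOn ((hh.sub hqc).pow 2))
          (integrableOn_const (by exact QQ_compact.measure_lt_top.ne)) QQ_compact.measurableSet h1
    _ = V * (ε / (V + 1)) := by rw [setIntegral_const, smul_eq_mul]
    _ ≤ ε := by
        rw [mul_div_assoc', div_le_iff₀ (by positivity)]
        nlinarith

end Pool.Agent.H94.Unc
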